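import Pool.Agent.Helper15.HS.GoalsC

open Complex Metric Set Filter Topology MeasureTheory
open scoped ContDiff ComplexConjugate ComplexOrder Manifold Matrix

namespace Pool.Agent.Helper75.HS

open Pool.Agent.Helper95.Lin Pool.Agent.Helper16.Abund Pool.Agent.Helper92.Orb
  Pool.Agent.Helper10.SP Pool.Agent.Helper95.RK Pool.Agent.Helper57.HS Pool.Agent.Helper15.HS

universe u

/-- Integrability of `κ g`. -/
theorem intg {n : ℕ} {T : Set (Cn n)} {κ : Cn n → ℝ} (hκ : TestF T κ)
    {g : Cn n → ℝ} (hg : ContinuousOn g T) : IntegrableOn (fun x => κ x * g x) T := by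
  obtain ⟨h1, h2, h3⟩ := hκ
  have hc : ContinuousOn (fun x => κ x * g x) (tsupport κ) :=
    h1.continuous.continuousOn.mul (hg.mono h3)
  have h4 : IntegrableOn (fun x => κ x * g x) (tsupport κ) :=
    hc.integrableOn_compact h2
  have h5 : Function.support (fun x => κ x * g x) ⊆ tsupport κ := by
    intro x hx
    apply subset_tsupport
    intro h6
    apply hx
    show κ x * g x = 0
    rw [h6, zero_mul]
  exact ((integrableOn_iff_integrable_of_support_subset h5).1 h4).integrableOn

/-- The data for the averages. -/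
structure AvD {n : ℕ} (T : Set (Cn n)) (κ : Cn n → ℝ) (Q : Cn n → Matrix (Fin n) (Fin n) ℂ) :
    Prop where
  op : IsOpen T
  test : TestF T κ
  nn : ∀ x, 0 ≤ κ x
  cont : ContinuousOn (fun x => (Q x).det.re) T
  pos : ∀ x ∈ T, 0 < (Q x).det.re
  D : 0 < itg T κ Q fun _ => 1

namespace AvD

variable {n : ℕ} {T : Set (Cn n)} {κ : Cn n → ℝ} {Q : Cn n → Matrix (Fin n) (Fin n) ℂ}

theorem integ (h : AvD T κ Q) {f : Cn n → ℝ} (hf : ContinuousOn f T) :
    IntegrableOn (fun x => κ x * (Q x).det.re * f x) T := by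
  have := intg h.test (h.cont.mul hf)
  refine this.congr_fun (fun x _ => ?_) h.op.measurableSet
  show κ x * ((Q x).det.re * f x) = _
  ring

theorem mono (h : AvD T κ Q) {f g : Cn n → ℝ} (hf : ContinuousOn f T) (hg : ContinuousOn g T)
    (hfg : ∀ x ∈ T, f x ≤ g x) : avE T κ Q f ≤ avE T κ Q g := by
  unfold avE
  refine div_le_div_of_nonneg_right ?_ h.D.le
  exact setIntegral_mono_on (h.integ hf) (h.integ hg) h.op.measurableSet fun x hx =>
    mul_le_mul_of_nonneg_left (hfg x hx) (mul_nonneg (h.nn x) (h.pos x hx).le)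

theorem add (h : AvD T κ Q) {f g : Cn n → ℝ} (hf : ContinuousOn f T) (hg : ContinuousOn g T) :
    avE T κ Q (fun x => f x + g x) = avE T κ Q f + avE T κ Q g := by
  unfold avE itg
  rw [← add_div, ← integral_add (h.integ hf) (h.integ hg)]
  congr 1
  exact setIntegral_congr_fun h.op.measurableSet fun x _ => by
    show κ x * (Q x).det.re * (f x + g x) = _
    ring

theorem smul (c : ℝ) (f : Cn n → ℝ) :
    avE T κ Q (fun x => c * f x) = c * avE T κ Q f := by
  unfold avE itg
  rw [← mul_div_assoc, ← integral_const_mul]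
  congr 1
  congr 1
  ext x
  ring

theorem one (h : AvD T κ Q) : avE T κ Q (fun _ => 1) = 1 := div_self h.D.ne'

theorem const (h : AvD T κ Q) (c : ℝ) : avE T κ Q (fun _ => c) = c := by
  have h1 := smul (T := T) (κ := κ) (Q := Q) c fun _ => 1
  rw [h.one, mul_one] at h1
  simpa using h1

theorem nonneg (h : AvD T κ Q) {f : Cn n → ℝ} (hf : ContinuousOn f T)
    (h0 : ∀ x ∈ T, 0 ≤ f x) : 0 ≤ avE T κ Q f := by
  have := h.mono continuousOn_const hf h0
  rwa [h.const] at this

theorem congr (h : AvD T κ Q) {f g : Cn n → ℝ} (hfg : ∀ x ∈ T, f x = g x) :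
    avE T κ Q f = avE T κ Q g := by
  unfold avE itg
  congr 1
  exact setIntegral_congr_fun h.op.measurableSet fun x hx => by
    show κ x * (Q x).det.re * f x = κ x * (Q x).det.re * g x
    rw [hfg x hx]

end AvD

/-- Entrywise continuity. -/
theorem contM {n m : ℕ} {T : Set (Cn n)} {A : Cn n → Matrix (Fin m) (Fin m) ℂ}
    (h : ∀ i j, ContinuousOn (fun x => A x i j) T) : ContinuousOn A T :=
  continuousOn_pi.2 fun i => continuousOn_pi.2 fun j => h i j

theorem contM_iff {n m : ℕ} {T : Set (Cn n)} {A : Cn n → Matrix (Fin m) (Fin m) ℂ}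
    (h : ContinuousOn A T) (i j : Fin m) : ContinuousOn (fun x => A x i j) T :=
  continuousOn_pi.1 (continuousOn_pi.1 h i) j

theorem contMul {n m : ℕ} {T : Set (Cn n)} {A B : Cn n → Matrix (Fin m) (Fin m) ℂ}
    (hA : ContinuousOn A T) (hB : ContinuousOn B T) : ContinuousOn (fun x => A x * B x) T :=
  (continuous_fst.matrix_mul continuous_snd).comp_continuousOn (hA.prodMk hB)

/-- Continuity of `B`. -/
theorem contB {n : ℕ} {T : Set (Cn n)} {H Q : Cn n → Matrix (Fin n) (Fin n) ℂ}
    (hH : ∀ i j, ContDiffOn ℝ ∞ (fun x => H x i j) T)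
    (hQ : ∀ i j, ContDiffOn ℝ ∞ (fun x => (Q x)⁻¹ i j) T) (e : ℝ) :
    ContinuousOn (Bep e H Q) T :=
  (contMul (contM fun i j => (hH i j).continuousOn)
    (contM fun i j => (hQ i j).continuousOn)).const_smul (e : ℂ)

/-- Continuity of `KK`. -/
theorem contKK (hW : S_WIRT) {n : ℕ} {T : Set (Cn n)} (hT : IsOpen T)
    {H Q : Cn n → Matrix (Fin n) (Fin n) ℂ}
    (hH : ∀ i j, ContDiffOn ℝ ∞ (fun x => H x i j) T)
    (hHi : ∀ i j, ContDiffOn ℝ ∞ (fun x => (H x)⁻¹ i j) T)
    (hQ : ∀ i j, ContDiffOn ℝ ∞ (fun x => (Q x)⁻¹ i j) T) :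
    ContinuousOn (KKt H Q) T := by
  have h0 : ContDiffOn ℝ ∞ (fun _ : Cn n => (0 : ℂ)) T := contDiffOn_const
  have hcrv : ∀ i j k l, ContinuousOn (fun x => crv H x i j k l) T := by
    intro i j k l
    have h1 : ContinuousOn (cd k (cdb l fun y => H y i j)) T := by
      have h2 := ((hW T hT _ _ (hH i j) h0).1 l).2
      exact ((hW T hT _ _ h2 h0).1 k).1.continuousOn
    have h3 : ContinuousOn (cdM k H) T :=
      contM fun a b => ((hW T hT _ _ (hH a b) h0).1 k).1.continuousOn
    have h4 : ContinuousOn (cdbM l H) T :=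
      contM fun a b => ((hW T hT _ _ (hH a b) h0).1 l).2.continuousOn
    have h5 : ContinuousOn (fun x => (H x)⁻¹) T := contM fun a b => (hHi a b).continuousOn
    exact h1.neg.add (contM_iff (contMul (contMul h3 h5) h4) i j)
  unfold KKt crvP
  refine Complex.continuous_re.comp_continuousOn ?_
  refine continuousOn_finsetSum _ fun i _ => continuousOn_finsetSum _ fun j _ =>
    continuousOn_finsetSum _ fun k _ => continuousOn_finsetSum _ fun l _ => ?_
  exact ((hQ j i).continuousOn.mul (hQ l k).continuousOn).mul (hcrv i j k l)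

end Pool.Agent.Helper75.HS
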