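import Mathlib

open Filter Topology MeasureTheory

namespace Pool.Agent.Helper75.HS

/-- The limit argument of CONC for the sequences of averages. -/
theorem concSeq (n k : ℕ) (C0 : ℝ) (hC0 : 0 < C0) (a b s r g h : ℕ → ℝ) (D : ℕ → ℝ → ℝ)
    (h1 : ∀ τ : ℝ, 0 ≤ τ → Tendsto (fun j => D j τ) atTop (𝓝 ((1 + τ) ^ k)))
    (h2 : ∀ᶠ j in atTop, ∀ τ : ℝ, 0 ≤ τ → τ ≤ 1 → 1 + τ * a j ≤ D j τ ∧
      D j τ ≤ 1 + τ * a j + C0 * τ ^ 2)
    (h3 : ∀ᶠ j in atTop, a j - b j = g j + h j ∧ 0 ≤ g j ∧ 0 ≤ h j)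
    (h4 : ∀ᶠ j in atTop, ∀ δ τ : ℝ, 0 < δ → δ ≤ 1 → 0 < τ →
      0 ≤ s j ∧ s j ≤ C0 * (b j - 2 * a j + k + 4 * n * (δ + D j τ / (δ ^ k * τ ^ (k + 1)))) ∧
      0 ≤ r j ∧ r j ≤ C0 * (b j - 2 * a j + k + 4 * n * (δ + D j τ / (δ ^ k * τ ^ (k + 1))))) :
    Tendsto s atTop (𝓝 0) ∧ Tendsto r atTop (𝓝 0) ∧ Tendsto g atTop (𝓝 0) ∧
      Tendsto h atTop (𝓝 0) := by
  -- step A
  have hA : Tendsto a atTop (𝓝 (k : ℝ)) := by
    rw [Metric.tendsto_atTop']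
    have hder : HasDerivAt (fun x : ℝ => (1 + x) ^ k) (k : ℝ) 0 := by
      have := ((hasDerivAt_id (0 : ℝ)).const_add 1).pow k
      have h5 : HasDerivAt (fun x : ℝ => (1 + x) ^ k) ((k : ℝ) * (1 + id (0 : ℝ)) ^ (k - 1) * 1) 0 :=
        this
      have h6 : (k : ℝ) * (1 + id (0 : ℝ)) ^ (k - 1) * 1 = k := by simp
      rwa [h6] at h5
    have hsl := hder.tendsto_slope_zero_right
    intro η hη
    have hsl2 := hsl.eventually (Metric.ball_mem_nhds _ (show 0 < η / 4 by linarith))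
    have hsm : ∀ᶠ τ : ℝ in 𝓝[>] 0, τ < min 1 (η / (4 * C0)) :=
      mem_nhdsWithin_of_mem_nhds (Iio_mem_nhds (lt_min one_pos (by positivity)))
    have hpos : ∀ᶠ τ : ℝ in 𝓝[>] 0, 0 < τ := self_mem_nhdsWithin
    obtain ⟨τ, ⟨hτ1, hτ2⟩, hτ3⟩ := ((hsl2.and hsm).and hpos).exists
    have hτ4 : τ < 1 := lt_of_lt_of_le hτ2 (min_le_left _ _)
    have hτ5 : τ * C0 < η / 4 := by
      have := lt_of_lt_of_le hτ2 (min_le_right _ _)
      rw [lt_div_iff₀ (by positivity)] at this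
      linarith
    have hD := (h1 τ hτ3.le).eventually (Metric.ball_mem_nhds _ (show 0 < τ * (η / 4) by positivity))
    have hev := (hD.and h2)
    obtain ⟨N, hN⟩ := eventually_atTop.1 hev
    refine ⟨N, fun j hj => ?_⟩
    obtain ⟨hj1, hj2⟩ := hN j hj.le
    obtain ⟨hj3, hj4⟩ := hj2 τ hτ3.le hτ4.le
    rw [Real.dist_eq, abs_lt] at hj1
    simp only [zero_add, add_zero, one_pow, smul_eq_mul] at hτ1
    rw [Real.dist_eq, abs_lt] at hτ1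
    obtain ⟨hs1, hs2⟩ := hτ1
    have hs1 : k - η / 4 < τ⁻¹ * ((1 + τ) ^ k - 1) := by linarith
    have hs2 : τ⁻¹ * ((1 + τ) ^ k - 1) < k + η / 4 := by linarith
    have e1 : τ⁻¹ * ((1 + τ) ^ k - 1) * τ = (1 + τ) ^ k - 1 := by
      field_simp
    have hs1' : (k - η / 4) * τ < (1 + τ) ^ k - 1 := by
      rw [← e1]; exact mul_lt_mul_of_pos_right hs1 hτ3
    have hs2' : (1 + τ) ^ k - 1 < (k + η / 4) * τ := by
      rw [← e1]; exact mul_lt_mul_of_pos_right hs2 hτ3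
    rw [Real.dist_eq, abs_lt]
    constructor
    · have : τ * (-η) < τ * (a j - k) := by nlinarith [hj1.1, hj4, hs1', hτ5, hτ3]
      exact lt_of_mul_lt_mul_left this hτ3.le
    · have : τ * (a j - k) < τ * η := by nlinarith [hj1.2, hj3, hs2', hτ3]
      exact lt_of_mul_lt_mul_left this hτ3.le
  -- the bound
  have hB : ∀ η : ℝ, 0 < η → ∃ δ τ : ℝ, 0 < δ ∧ δ ≤ 1 ∧ 0 < τ ∧
      ∀ᶠ j in atTop, (k : ℝ) - a j + 4 * n * (δ + D j τ / (δ ^ k * τ ^ (k + 1))) < η := by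
    intro η hη
    have hn : (0 : ℝ) ≤ n := Nat.cast_nonneg n
    obtain ⟨δ, hδ0, hδ1, hδ2⟩ : ∃ δ : ℝ, 0 < δ ∧ δ ≤ 1 ∧ 4 * n * δ ≤ η / 4 := by
      refine ⟨min 1 (η / (16 * (n + 1))), lt_min one_pos (by positivity), min_le_left _ _, ?_⟩
      have h5 : min 1 (η / (16 * (n + 1))) ≤ η / (16 * (n + 1)) := min_le_right _ _
      have h6 : (4 * n) * min 1 (η / (16 * (n + 1))) ≤ (4 * n) * (η / (16 * (n + 1))) :=
        mul_le_mul_of_nonneg_left h5 (by positivity)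
      refine h6.trans ?_
      rw [mul_div_assoc', div_le_div_iff₀ (by positivity) (by norm_num)]
      nlinarith
    have hlim : Tendsto (fun τ : ℝ => 4 * n * ((2 / δ) ^ k / τ)) atTop (𝓝 0) := by
      have := (tendsto_const_nhds (x := (2 / δ) ^ k)).div_atTop (tendsto_id (α := ℝ))
      simpa using this.const_mul (4 * (n : ℝ))
    have h7 : ∀ᶠ τ : ℝ in atTop, 4 * n * ((2 / δ) ^ k / τ) < η / 4 :=
      hlim.eventually (Iio_mem_nhds (by linarith))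
    obtain ⟨τ, hτ1, hτ2⟩ := (h7.and (eventually_ge_atTop (1 : ℝ))).exists
    have hτ0 : 0 < τ := by linarith
    refine ⟨δ, τ, hδ0, hδ1, hτ0, ?_⟩
    have h8 : (1 + τ) ^ k / (δ ^ k * τ ^ (k + 1)) ≤ (2 / δ) ^ k / τ := by
      have h9 : (1 + τ) ^ k ≤ (2 * τ) ^ k := pow_le_pow_left₀ (by positivity) (by linarith) _
      calc (1 + τ) ^ k / (δ ^ k * τ ^ (k + 1)) ≤ (2 * τ) ^ k / (δ ^ k * τ ^ (k + 1)) := by
            gcongr
        _ = (2 / δ) ^ k / τ := by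
            rw [mul_pow, div_pow, div_div, div_eq_div_iff (by positivity) (by positivity)]
            ring
    have h10 : Tendsto (fun j => (k : ℝ) - a j + 4 * n * (δ + D j τ / (δ ^ k * τ ^ (k + 1)))) atTop
        (𝓝 ((k : ℝ) - k + 4 * n * (δ + (1 + τ) ^ k / (δ ^ k * τ ^ (k + 1))))) :=
      (hA.const_sub _).add ((((h1 τ hτ0.le).div_const _).const_add _).const_mul _)
    refine h10.eventually (Iio_mem_nhds ?_)
    have h11 : 4 * (n : ℝ) * ((1 + τ) ^ k / (δ ^ k * τ ^ (k + 1))) ≤ 4 * n * ((2 / δ) ^ k / τ) :=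
      mul_le_mul_of_nonneg_left h8 (by positivity)
    have h12 : (k : ℝ) - k + 4 * n * (δ + (1 + τ) ^ k / (δ ^ k * τ ^ (k + 1))) =
      4 * n * δ + 4 * n * ((1 + τ) ^ k / (δ ^ k * τ ^ (k + 1))) := by ring
    rw [h12]
    linarith
  -- conclusion
  have key : ∀ f : ℕ → ℝ, ∀ c : ℝ, 0 < c → (∀ᶠ j in atTop, ∀ δ τ : ℝ, 0 < δ → δ ≤ 1 → 0 < τ →
      0 ≤ f j ∧ f j ≤ c * ((k : ℝ) - a j + 4 * n * (δ + D j τ / (δ ^ k * τ ^ (k + 1))))) →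
      Tendsto f atTop (𝓝 0) := by
    intro f c hc hf
    rw [Metric.tendsto_atTop']
    intro η hη
    obtain ⟨δ, τ, hδ0, hδ1, hτ0, hev⟩ := hB (η / c) (by positivity)
    obtain ⟨N, hN⟩ := eventually_atTop.1 (hev.and hf)
    refine ⟨N, fun j hj => ?_⟩
    obtain ⟨hj1, hj2⟩ := hN j hj.le
    obtain ⟨hj3, hj4⟩ := hj2 δ τ hδ0 hδ1 hτ0
    rw [Real.dist_eq, sub_zero, abs_of_nonneg hj3]
    refine hj4.trans_lt ?_
    have := mul_lt_mul_of_pos_left hj1 hc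
    rwa [mul_div_cancel₀ _ hc.ne'] at this
  have hab : ∀ᶠ j in atTop, ∀ δ τ : ℝ, 0 < δ → δ ≤ 1 → 0 < τ →
      a j - b j ≤ (k : ℝ) - a j + 4 * n * (δ + D j τ / (δ ^ k * τ ^ (k + 1))) := by
    filter_upwards [h4] with j hj δ τ hδ hδ1 hτ
    obtain ⟨q1, q2, -, -⟩ := hj δ τ hδ hδ1 hτ
    have := nonneg_of_mul_nonneg_right (q1.trans q2) hC0
    linarith
  refine ⟨key s C0 hC0 ?_, key r C0 hC0 ?_, key g 1 one_pos ?_, key h 1 one_pos ?_⟩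
  · filter_upwards [h4, h3] with j hj hj3 δ τ hδ hδ1 hτ
    obtain ⟨q1, q2, -, -⟩ := hj δ τ hδ hδ1 hτ
    obtain ⟨q3, q4, q5⟩ := hj3
    refine ⟨q1, q2.trans (mul_le_mul_of_nonneg_left ?_ hC0.le)⟩
    linarith
  · filter_upwards [h4, h3] with j hj hj3 δ τ hδ hδ1 hτ
    obtain ⟨-, -, q1, q2⟩ := hj δ τ hδ hδ1 hτ
    obtain ⟨q3, q4, q5⟩ := hj3
    refine ⟨q1, q2.trans (mul_le_mul_of_nonneg_left ?_ hC0.le)⟩
    linarith
  · filter_upwards [hab, h3] with j hj hj3 δ τ hδ hδ1 hτ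
    have := hj δ τ hδ hδ1 hτ
    obtain ⟨q3, q4, q5⟩ := hj3
    refine ⟨q4, ?_⟩
    linarith
  · filter_upwards [hab, h3] with j hj hj3 δ τ hδ hδ1 hτ
    have := hj δ τ hδ hδ1 hτ
    obtain ⟨q3, q4, q5⟩ := hj3
    refine ⟨q5, ?_⟩
    linarith

end Pool.Agent.Helper75.HS
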