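import Mathlib

open Matrix
open scoped ComplexOrder Matrix

namespace Pool.Agent.Helper75.HS

/-! ## Eigenvalues of `H * Q⁻¹` -/

theorem exists_factor {n : ℕ} (K : Matrix (Fin n) (Fin n) ℂ) (hK : K.PosDef) :
    ∃ P P' : Matrix (Fin n) (Fin n) ℂ, P * P' = 1 ∧ P' * P = 1 ∧ K = Pᴴ * P := by
  classical
  let U : Matrix (Fin n) (Fin n) ℂ := (hK.1.eigenvectorUnitary : Matrix (Fin n) (Fin n) ℂ)
  have hU1 : U * Uᴴ = 1 := by
    exact Unitary.coe_mul_star_self hK.1.eigenvectorUnitary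
  have hU2 : Uᴴ * U = 1 := by
    have := Unitary.coe_star_mul_self hK.1.eigenvectorUnitary
    rwa [star_eq_conjTranspose] at this
  let e : Fin n → ℝ := hK.1.eigenvalues
  have he : ∀ i, 0 < e i := hK.eigenvalues_pos
  have hsp : K = U * diagonal (fun i => (e i : ℂ)) * Uᴴ := by
    have h := hK.1.spectral_theorem
    rw [Unitary.conjStarAlgAut_apply] at h
    exact h
  let s : Fin n → ℂ := fun i => ((Real.sqrt (e i) : ℝ) : ℂ)
  have hs : ∀ i, s i * s i = (e i : ℂ) := fun i => by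
    simp only [s]
    rw [← Complex.ofReal_mul, Real.mul_self_sqrt (he i).le]
  have hs0 : ∀ i, s i ≠ 0 := fun i h => by
    have h1 := hs i
    rw [h, mul_zero] at h1
    exact (he i).ne' (by exact_mod_cast h1.symm)
  refine ⟨diagonal s * Uᴴ, U * diagonal (fun i => (s i)⁻¹), ?_, ?_, ?_⟩
  · rw [Matrix.mul_assoc, ← Matrix.mul_assoc Uᴴ, hU2, Matrix.one_mul, diagonal_mul_diagonal]
    rw [← diagonal_one]
    congr 1
    ext i
    exact mul_inv_cancel₀ (hs0 i)
  · rw [Matrix.mul_assoc, ← Matrix.mul_assoc (diagonal _) (diagonal _), diagonal_mul_diagonal]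
    have : (fun i => (s i)⁻¹ * s i) = fun _ => 1 := by
      ext i
      exact inv_mul_cancel₀ (hs0 i)
    rw [this, diagonal_one, Matrix.one_mul, hU1]
  · rw [conjTranspose_mul, conjTranspose_conjTranspose, diagonal_conjTranspose, Matrix.mul_assoc,
      ← Matrix.mul_assoc (diagonal _) (diagonal _), diagonal_mul_diagonal, ← Matrix.mul_assoc]
    have : (fun i => star s i * s i) = fun i => (e i : ℂ) := by
      ext i
      have : star s i = s i := by
        simp only [s, Pi.star_apply]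
        exact Complex.conj_ofReal _
      rw [this, hs]
    rw [this, ← hsp]

/-- `H * Q⁻¹` is diagonalisable with non-negative real eigenvalues. -/
theorem exists_diag {n : ℕ} (H Q B : Matrix (Fin n) (Fin n) ℂ) (hH : H.PosDef) (hQ : Q.PosDef)
    (hB : B = H * Q⁻¹) : ∃ (W : Matrix (Fin n) (Fin n) ℂ) (lam : Fin n → ℝ), IsUnit W ∧
      (∀ i, 0 ≤ lam i) ∧ B = W * diagonal (fun i => (lam i : ℂ)) * W⁻¹ := by
  classical
  obtain ⟨P, P', h1, h2, hK⟩ := exists_factor Q⁻¹ hQ.inv
  have hM : (P * H * Pᴴ).PosSemidef := hH.posSemidef.mul_mul_conjTranspose_same P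
  let U : Matrix (Fin n) (Fin n) ℂ := (hM.1.eigenvectorUnitary : Matrix (Fin n) (Fin n) ℂ)
  have hU1 : U * Uᴴ = 1 := by
    exact Unitary.coe_mul_star_self hM.1.eigenvectorUnitary
  have hU2 : Uᴴ * U = 1 := by
    have := Unitary.coe_star_mul_self hM.1.eigenvectorUnitary
    rwa [star_eq_conjTranspose] at this
  let e : Fin n → ℝ := hM.1.eigenvalues
  have hsp : P * H * Pᴴ = U * diagonal (fun i => (e i : ℂ)) * Uᴴ := by
    have h := hM.1.spectral_theorem
    rw [Unitary.conjStarAlgAut_apply] at h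
    exact h
  have hW1 : (P' * U) * (Uᴴ * P) = 1 := by
    rw [Matrix.mul_assoc, ← Matrix.mul_assoc U, hU1, Matrix.one_mul, h2]
  have hW2 : (Uᴴ * P) * (P' * U) = 1 := by
    rw [Matrix.mul_assoc, ← Matrix.mul_assoc P, h1, Matrix.one_mul, hU2]
  have hinv : (P' * U)⁻¹ = Uᴴ * P := Matrix.inv_eq_right_inv hW1
  refine ⟨P' * U, e, ?_, hM.eigenvalues_nonneg, ?_⟩
  · exact (isUnit_iff_exists.2 ⟨Uᴴ * P, hW1, hW2⟩)
  · rw [hinv, hB, hK]
    calc H * (Pᴴ * P) = (P' * P) * H * (Pᴴ * P) := by rw [h2, Matrix.one_mul]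
      _ = P' * (P * H * Pᴴ) * P := by simp only [Matrix.mul_assoc]
      _ = P' * (U * diagonal (fun i => (e i : ℂ)) * Uᴴ) * P := by rw [hsp]
      _ = P' * U * diagonal (fun i => (e i : ℂ)) * (Uᴴ * P) := by simp only [Matrix.mul_assoc]

/-- The eigenvalues can be ordered. -/
theorem exists_diag_sorted {n : ℕ} (H Q B : Matrix (Fin n) (Fin n) ℂ) (hH : H.PosDef)
    (hQ : Q.PosDef) (hB : B = H * Q⁻¹) : ∃ lam : Fin n → ℝ,
      (∀ i, 0 ≤ lam i) ∧ Antitone lam ∧ (trace B).re = ∑ i, lam i ∧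
      (trace (B * B)).re = ∑ i, lam i ^ 2 ∧
      (trace ((B * B - B) * (B * B - B))).re = ∑ i, (lam i ^ 2 - lam i) ^ 2 ∧
      ∀ τ : ℝ, (1 + (τ : ℂ) • B).det.re = ∏ i, (1 + τ * lam i) := by
  classical
  obtain ⟨W, lam, hW, hl, rfl⟩ := exists_diag H Q B hH hQ hB
  let σ := Tuple.sort (fun i => - lam i)
  have hσ : Antitone (lam ∘ σ) := by
    have h := Tuple.monotone_sort (fun i => - lam i)
    intro a b hab
    have := h hab
    simp only [Function.comp] at this ⊢
    linarith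
  have hWW : W⁻¹ * W = 1 := Matrix.nonsing_inv_mul W ((Matrix.isUnit_iff_isUnit_det W).1 hW)
  have hWW' : W * W⁻¹ = 1 := Matrix.mul_nonsing_inv W ((Matrix.isUnit_iff_isUnit_det W).1 hW)
  have hmul : ∀ a b : Fin n → ℂ, (W * diagonal a * W⁻¹) * (W * diagonal b * W⁻¹) =
      W * diagonal (fun i => a i * b i) * W⁻¹ := by
    intro a b
    calc (W * diagonal a * W⁻¹) * (W * diagonal b * W⁻¹) =
        W * (diagonal a * ((W⁻¹ * W) * (diagonal b))) * W⁻¹ := by simp only [Matrix.mul_assoc]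
      _ = _ := by rw [hWW, Matrix.one_mul, diagonal_mul_diagonal]
  have htr : ∀ a : Fin n → ℂ, trace (W * diagonal a * W⁻¹) = ∑ i, a i := by
    intro a
    rw [Matrix.trace_conj hW, trace_diagonal]
  have hperm : ∀ f : ℝ → ℝ, ∑ i, f ((lam ∘ σ) i) = ∑ i, f (lam i) := fun f =>
    Equiv.sum_comp σ (fun i => f (lam i))
  refine ⟨lam ∘ σ, fun i => hl _, hσ, ?_, ?_, ?_, ?_⟩
  · rw [htr, hperm (fun x => x), Complex.re_sum]
    rfl
  · rw [hmul, htr, hperm (fun x => x ^ 2), Complex.re_sum]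
    refine Finset.sum_congr rfl fun i _ => ?_
    rw [← Complex.ofReal_mul, Complex.ofReal_re, sq]
  · have h1 : (W * diagonal (fun i => (lam i : ℂ)) * W⁻¹) * (W * diagonal (fun i => (lam i : ℂ)) *
        W⁻¹) - W * diagonal (fun i => (lam i : ℂ)) * W⁻¹ =
        W * diagonal (fun i => (((lam i) ^ 2 - lam i : ℝ) : ℂ)) * W⁻¹ := by
      rw [hmul, ← Matrix.sub_mul, ← Matrix.mul_sub, diagonal_sub]
      congr 3
      ext i
      push_cast
      ring
    rw [h1, hmul, htr, hperm (fun x => (x ^ 2 - x) ^ 2), Complex.re_sum]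
    refine Finset.sum_congr rfl fun i _ => ?_
    rw [← Complex.ofReal_mul, Complex.ofReal_re, sq ((lam i) ^ 2 - lam i)]
  · intro τ
    have h1 : 1 + (τ : ℂ) • (W * diagonal (fun i => (lam i : ℂ)) * W⁻¹) =
        W * diagonal (fun i => ((1 + τ * lam i : ℝ) : ℂ)) * W⁻¹ := by
      have h2 : (fun i => ((1 + τ * lam i : ℝ) : ℂ)) = fun i => 1 + (τ : ℂ) * (lam i : ℂ) := by
        ext i
        push_cast
        rfl
      rw [h2, ← diagonal_add, diagonal_one]
      have h3 : diagonal (fun i => (τ : ℂ) * (lam i : ℂ)) =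
          (τ : ℂ) • diagonal (fun i => (lam i : ℂ)) := by
        rw [← diagonal_smul]
        rfl
      rw [h3, Matrix.mul_add, Matrix.add_mul, Matrix.mul_one, hWW', Matrix.mul_smul,
        Matrix.smul_mul]
    rw [h1, Matrix.det_conj hW, det_diagonal, ← Complex.ofReal_prod, Complex.ofReal_re]
    exact (Equiv.prod_comp σ (fun i => 1 + τ * lam i)).symm

/-! ## The inequalities -/

section real

variable {n : ℕ} {lam : Fin n → ℝ}

theorem exp_upper {x : ℝ} (hx : 0 ≤ x) : Real.exp x ≤ 1 + x + x ^ 2 * Real.exp x := by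
  have h1 : Real.exp x * (1 - x) ≤ 1 := by
    have h2 : 1 - x ≤ Real.exp (-x) := by
      have := Real.add_one_le_exp (-x)
      linarith
    calc Real.exp x * (1 - x) ≤ Real.exp x * Real.exp (-x) :=
          mul_le_mul_of_nonneg_left h2 (Real.exp_pos _).le
      _ = 1 := by rw [← Real.exp_add, add_neg_cancel, Real.exp_zero]
  nlinarith [mul_le_mul_of_nonneg_left h1 hx]

theorem lam_le_sum (hl : ∀ i, 0 ≤ lam i) (i : Fin n) : lam i ≤ ∑ j, lam j :=
  Finset.single_le_sum (fun j _ => hl j) (Finset.mem_univ i)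

theorem prod_lower (hl : ∀ i, 0 ≤ lam i) {τ : ℝ} (hτ : 0 ≤ τ) (s : Finset (Fin n)) :
    1 + τ * ∑ i ∈ s, lam i ≤ ∏ i ∈ s, (1 + τ * lam i) := by
  classical
  induction s using Finset.induction_on with
  | empty => simp
  | insert a s ha ih =>
    rw [Finset.sum_insert ha, Finset.prod_insert ha]
    have h0 : 0 ≤ τ * lam a := mul_nonneg hτ (hl a)
    have h1 : 0 ≤ τ * ∑ i ∈ s, lam i := mul_nonneg hτ (Finset.sum_nonneg fun i _ => hl i)
    calc 1 + τ * (lam a + ∑ i ∈ s, lam i) ≤ (1 + τ * lam a) * (1 + τ * ∑ i ∈ s, lam i) := by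
          nlinarith [mul_nonneg h0 h1]
      _ ≤ _ := mul_le_mul_of_nonneg_left ih (by linarith)

theorem prod_upper (hl : ∀ i, 0 ≤ lam i) {τ : ℝ} (hτ : 0 ≤ τ) :
    ∏ i, (1 + τ * lam i) ≤ Real.exp (τ * ∑ i, lam i) := by
  rw [Finset.mul_sum, Real.exp_sum]
  refine Finset.prod_le_prod (fun i _ => ?_) (fun i _ => ?_)
  · have := mul_nonneg hτ (hl i)
    linarith
  · have := Real.add_one_le_exp (τ * lam i)
    linarith

theorem tail_le (hl : ∀ i, 0 ≤ lam i) (ha : Antitone lam) {k : ℕ} {δ τ : ℝ} (hδ : 0 < δ)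
    (hτ : 0 < τ) (j : Fin n) (hj : k ≤ j.val) :
    lam j ≤ δ + (∏ i, (1 + τ * lam i)) / (δ ^ k * τ ^ (k + 1)) := by
  classical
  have hd : 0 ≤ ∏ i, (1 + τ * lam i) := Finset.prod_nonneg fun i _ => by
    have := mul_nonneg hτ.le (hl i)
    linarith
  rcases le_or_gt (lam j) δ with h | h
  · have : 0 ≤ (∏ i, (1 + τ * lam i)) / (δ ^ k * τ ^ (k + 1)) := by positivity
    linarith
  · have h0 : 0 < lam j := hδ.trans h
    have h1 : (τ * lam j) ^ (k + 1) ≤ ∏ i, (1 + τ * lam i) := by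
      let s : Finset (Fin n) := Finset.univ.filter (fun i => i.val < k + 1)
      have hcard : s.card = k + 1 := by
        have : s = (Finset.range (k + 1)).attachFin (fun i hi => by
            have := Finset.mem_range.1 hi
            have := j.isLt
            omega) := by
          ext i
          simp [s]
        rw [this, Finset.card_attachFin, Finset.card_range]
      calc (τ * lam j) ^ (k + 1) = ∏ _i ∈ s, (τ * lam j) := by
            rw [Finset.prod_const, hcard]
        _ ≤ ∏ i ∈ s, (1 + τ * lam i) := by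
            refine Finset.prod_le_prod (fun i _ => (mul_pos hτ h0).le) (fun i hi => ?_)
            have h2 : lam j ≤ lam i := ha (by
              have := (Finset.mem_filter.1 hi).2
              rw [Fin.le_def]
              omega)
            have := mul_le_mul_of_nonneg_left h2 hτ.le
            linarith
        _ ≤ ∏ i, (1 + τ * lam i) := by
            rw [← Finset.prod_sdiff (Finset.subset_univ s)]
            have h3 := prod_lower hl hτ.le (Finset.univ \ s)
            have h4 : 0 ≤ τ * ∑ i ∈ Finset.univ \ s, lam i :=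
              mul_nonneg hτ.le (Finset.sum_nonneg fun i _ => hl i)
            have h5 : 0 ≤ ∏ i ∈ s, (1 + τ * lam i) := Finset.prod_nonneg fun i _ => by
              have := mul_nonneg hτ.le (hl i)
              linarith
            exact le_mul_of_one_le_left h5 (by linarith)
    have h2 : lam j ≤ (∏ i, (1 + τ * lam i)) / (δ ^ k * τ ^ (k + 1)) := by
      rw [le_div_iff₀ (by positivity)]
      calc lam j * (δ ^ k * τ ^ (k + 1)) ≤ lam j * (lam j ^ k * τ ^ (k + 1)) := by
            refine mul_le_mul_of_nonneg_left ?_ h0.le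
            exact mul_le_mul_of_nonneg_right (pow_le_pow_left₀ hδ.le h.le k) (by positivity)
        _ = (τ * lam j) ^ (k + 1) := by rw [mul_pow, pow_succ (lam j)]; ring
        _ ≤ _ := h1
    linarith

/-- the key estimate -/
theorem key_le (hl : ∀ i, 0 ≤ lam i) (ha : Antitone lam) {k : ℕ} (hk : k ≤ n) {δ τ : ℝ}
    (hδ : 0 < δ) (hτ : 0 < τ) :
    (∑ i ∈ Finset.univ.filter (fun i : Fin n => i.val < k), (lam i - 1) ^ 2) +
      2 * ∑ i ∈ Finset.univ.filter (fun i : Fin n => ¬ i.val < k), lam i ≤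
    (∑ i, lam i ^ 2) - 2 * (∑ i, lam i) + k +
      4 * n * (δ + (∏ i, (1 + τ * lam i)) / (δ ^ k * τ ^ (k + 1))) := by
  classical
  obtain ⟨θ, hθ⟩ : ∃ θ, θ = δ + (∏ i, (1 + τ * lam i)) / (δ ^ k * τ ^ (k + 1)) := ⟨_, rfl⟩
  rw [← hθ]
  have hd : 0 ≤ ∏ i, (1 + τ * lam i) := Finset.prod_nonneg fun i _ => by
    have := mul_nonneg hτ.le (hl i)
    linarith
  have hθ0 : 0 ≤ θ := by rw [hθ]; positivity
  have hell : ∑ i ∈ Finset.univ.filter (fun i : Fin n => ¬ i.val < k), lam i ≤ n * θ := by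
    calc _ ≤ ∑ i ∈ Finset.univ.filter (fun i : Fin n => ¬ i.val < k), θ := by
          refine Finset.sum_le_sum fun i hi => ?_
          rw [hθ]
          exact tail_le hl ha hδ hτ i (not_lt.1 (Finset.mem_filter.1 hi).2)
      _ ≤ ∑ _i : Fin n, θ := Finset.sum_le_sum_of_subset_of_nonneg (Finset.subset_univ _)
          (fun _ _ _ => hθ0)
      _ = n * θ := by simp
  have hcard : ((Finset.univ.filter (fun i : Fin n => i.val < k)).card : ℝ) = k := by
    have : Finset.univ.filter (fun i : Fin n => i.val < k) =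
        (Finset.range k).attachFin (fun i hi => by
          have := Finset.mem_range.1 hi
          omega) := by
      ext i
      simp
    rw [this, Finset.card_attachFin, Finset.card_range]
  have e1 : ∑ i, lam i ^ 2 = (∑ i ∈ Finset.univ.filter (fun i : Fin n => i.val < k), lam i ^ 2) +
      ∑ i ∈ Finset.univ.filter (fun i : Fin n => ¬ i.val < k), lam i ^ 2 :=
    (Finset.sum_filter_add_sum_filter_not _ _ _).symm
  have e2 : ∑ i, lam i = (∑ i ∈ Finset.univ.filter (fun i : Fin n => i.val < k), lam i) +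
      ∑ i ∈ Finset.univ.filter (fun i : Fin n => ¬ i.val < k), lam i :=
    (Finset.sum_filter_add_sum_filter_not _ _ _).symm
  have e3 : ∑ i ∈ Finset.univ.filter (fun i : Fin n => i.val < k), (lam i - 1) ^ 2 =
      (∑ i ∈ Finset.univ.filter (fun i : Fin n => i.val < k), lam i ^ 2) -
        2 * (∑ i ∈ Finset.univ.filter (fun i : Fin n => i.val < k), lam i) + k := by
    have : ∀ i : Fin n, (lam i - 1) ^ 2 = lam i ^ 2 - 2 * lam i + 1 := fun i => by ring
    simp only [this]
    rw [Finset.sum_add_distrib, Finset.sum_sub_distrib, ← Finset.mul_sum, Finset.sum_const,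
      nsmul_eq_mul, mul_one, hcard]
  have e4 : 0 ≤ ∑ i ∈ Finset.univ.filter (fun i : Fin n => ¬ i.val < k), lam i ^ 2 :=
    Finset.sum_nonneg fun i _ => sq_nonneg _
  rw [e1, e2, e3]
  linarith

theorem first_le (hl : ∀ i, 0 ≤ lam i) (hs : ∑ i, lam i ≤ n) (k : ℕ) :
    ∑ i, (lam i ^ 2 - lam i) ^ 2 ≤
      (n + 1) ^ 3 * ((∑ i ∈ Finset.univ.filter (fun i : Fin n => i.val < k), (lam i - 1) ^ 2) +
      2 * ∑ i ∈ Finset.univ.filter (fun i : Fin n => ¬ i.val < k), lam i) := by
  classical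
  have hn : (0 : ℝ) ≤ n := Nat.cast_nonneg n
  have hln : ∀ i, lam i ≤ n := fun i => (lam_le_sum hl i).trans hs
  rw [← Finset.sum_filter_add_sum_filter_not Finset.univ (fun i : Fin n => i.val < k)
    (fun i => (lam i ^ 2 - lam i) ^ 2), mul_add]
  refine add_le_add ?_ ?_
  · rw [Finset.mul_sum]
    refine Finset.sum_le_sum fun i _ => ?_
    have h1 : (lam i ^ 2 - lam i) ^ 2 = lam i ^ 2 * (lam i - 1) ^ 2 := by ring
    rw [h1]
    refine mul_le_mul_of_nonneg_right ?_ (sq_nonneg _)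
    have h2 : lam i ^ 2 ≤ (n : ℝ) ^ 2 := pow_le_pow_left₀ (hl i) (hln i) 2
    nlinarith [sq_nonneg (n : ℝ), mul_nonneg hn hn, mul_nonneg hn (mul_nonneg hn hn)]
  · rw [← mul_assoc, Finset.mul_sum]
    refine Finset.sum_le_sum fun i _ => ?_
    have h1 : (lam i ^ 2 - lam i) ^ 2 = lam i * (lam i - 1) ^ 2 * lam i := by ring
    rw [h1]
    refine mul_le_mul_of_nonneg_right ?_ (hl i)
    have h3 : (lam i - 1) ^ 2 ≤ ((n : ℝ) + 1) ^ 2 := by
      have := hl i
      have := hln i
      nlinarith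
    have h4 : lam i * (lam i - 1) ^ 2 ≤ n * ((n : ℝ) + 1) ^ 2 :=
      mul_le_mul (hln i) h3 (sq_nonneg _) hn
    have h5 : (0 : ℝ) ≤ (n + 1) ^ 2 := sq_nonneg _
    have h6 : (n : ℝ) * (n + 1) ^ 2 ≤ (n + 1) ^ 3 * 2 := by
      have : ((n : ℝ) + 1) ^ 3 * 2 = n * (n + 1) ^ 2 + ((n : ℝ) + 2) * (n + 1) ^ 2 := by ring
      rw [this]
      have : 0 ≤ ((n : ℝ) + 2) * (n + 1) ^ 2 := mul_nonneg (by linarith) h5
      linarith
    exact h4.trans h6

theorem second_le (hl : ∀ i, 0 ≤ lam i) (hs : ∑ i, lam i ≤ n) {k : ℕ} (hk : k ≤ n) :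
    ((∑ i, lam i) - k) ^ 2 ≤
      (2 * n + 1) * ((∑ i ∈ Finset.univ.filter (fun i : Fin n => i.val < k), (lam i - 1) ^ 2) +
      2 * ∑ i ∈ Finset.univ.filter (fun i : Fin n => ¬ i.val < k), lam i) := by
  classical
  have hn : (0 : ℝ) ≤ n := Nat.cast_nonneg n
  have hcardN : (Finset.univ.filter (fun i : Fin n => i.val < k)).card = k := by
    have : Finset.univ.filter (fun i : Fin n => i.val < k) =
        (Finset.range k).attachFin (fun i hi => by
          have := Finset.mem_range.1 hi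
          omega) := by
      ext i
      simp
    rw [this, Finset.card_attachFin, Finset.card_range]
  obtain ⟨ell, hell⟩ : ∃ ell, ell =
    ∑ i ∈ Finset.univ.filter (fun i : Fin n => ¬ i.val < k), lam i := ⟨_, rfl⟩
  have hell0 : 0 ≤ ell := by rw [hell]; exact Finset.sum_nonneg fun i _ => hl i
  have helln : ell ≤ n := by
    rw [hell]
    exact (Finset.sum_le_sum_of_subset_of_nonneg (Finset.subset_univ _)
      (fun i _ _ => hl i)).trans hs
  have e2 : (∑ i, lam i) - k =
      (∑ i ∈ Finset.univ.filter (fun i : Fin n => i.val < k), (lam i - 1)) + ell := by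
    rw [Finset.sum_sub_distrib, Finset.sum_const, hcardN, nsmul_eq_mul, mul_one, hell,
      ← Finset.sum_filter_add_sum_filter_not Finset.univ (fun i : Fin n => i.val < k) lam]
    ring
  have e3 : (∑ i ∈ Finset.univ.filter (fun i : Fin n => i.val < k), (lam i - 1)) ^ 2 ≤
      n * ∑ i ∈ Finset.univ.filter (fun i : Fin n => i.val < k), (lam i - 1) ^ 2 := by
    have h1 := sq_sum_le_card_mul_sum_sq
      (s := Finset.univ.filter (fun i : Fin n => i.val < k)) (f := fun i => lam i - 1)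
    rw [hcardN] at h1
    refine h1.trans (mul_le_mul_of_nonneg_right (by exact_mod_cast hk)
      (Finset.sum_nonneg fun i _ => sq_nonneg _))
  obtain ⟨A, hA⟩ : ∃ A, A =
    ∑ i ∈ Finset.univ.filter (fun i : Fin n => i.val < k), (lam i - 1) := ⟨_, rfl⟩
  obtain ⟨Z, hZ⟩ : ∃ Z, Z =
    ∑ i ∈ Finset.univ.filter (fun i : Fin n => i.val < k), (lam i - 1) ^ 2 := ⟨_, rfl⟩
  have hZ0 : 0 ≤ Z := by rw [hZ]; exact Finset.sum_nonneg fun i _ => sq_nonneg _
  rw [e2, ← hell, ← hA, ← hZ]
  rw [← hA, ← hZ] at e3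
  nlinarith [sq_nonneg (A - ell), mul_nonneg hell0 (sub_nonneg.2 helln), mul_nonneg hn hZ0,
    mul_nonneg hn hell0]

end real

end Pool.Agent.Helper75.HS
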