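import Pool.Agent.Helper15.HS.GoalsC
import Pool.Agent.Helper75.HS.LACa

open Matrix
open scoped ComplexOrder Matrix

namespace Pool.Agent.Helper75.HS

open Pool.Agent.Helper15.HS

theorem lac : S_LAC := by
  intro n
  have hn : (0 : ℝ) ≤ n := Nat.cast_nonneg n
  have he : (1 : ℝ) ≤ Real.exp n := Real.one_le_exp hn
  have hC1 : ((n : ℝ) + 1) ^ 3 ≤ (2 * n + 1) * (n + 1) ^ 3 * Real.exp n := by
    have h1 : (0 : ℝ) ≤ (n + 1) ^ 3 := by positivity
    have h2 : ((n : ℝ) + 1) ^ 3 ≤ (2 * n + 1) * (n + 1) ^ 3 := by nlinarith [mul_nonneg hn h1]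
    exact h2.trans (le_mul_of_one_le_right (by positivity) he)
  have hC2 : (2 * (n : ℝ) + 1) ≤ (2 * n + 1) * (n + 1) ^ 3 * Real.exp n := by
    have h1 : (1 : ℝ) ≤ (n + 1) ^ 3 := one_le_pow₀ (by linarith)
    have h2 : (2 * (n : ℝ) + 1) ≤ (2 * n + 1) * (n + 1) ^ 3 :=
      le_mul_of_one_le_right (by linarith) h1
    exact h2.trans (le_mul_of_one_le_right (by positivity) he)
  have hC3 : (n : ℝ) ^ 2 * Real.exp n ≤ (2 * n + 1) * (n + 1) ^ 3 * Real.exp n := by
    refine mul_le_mul_of_nonneg_right ?_ (Real.exp_pos _).le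
    have h1 : (n : ℝ) ^ 2 ≤ (n + 1) ^ 2 := pow_le_pow_left₀ hn (by linarith) 2
    have h2 : ((n : ℝ) + 1) ^ 2 ≤ (n + 1) ^ 3 := pow_le_pow_right₀ (by linarith) (by norm_num)
    have h3 : (0 : ℝ) ≤ (n + 1) ^ 3 := by positivity
    nlinarith [mul_nonneg hn h3]
  have hC4 : (n : ℝ) ^ 2 ≤ (2 * n + 1) * (n + 1) ^ 3 * Real.exp n :=
    (le_mul_of_one_le_right (by positivity) he).trans hC3
  refine ⟨(2 * n + 1) * (n + 1) ^ 3 * Real.exp n, by positivity, ?_⟩
  intro H Q B hH hQ hB htr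
  obtain ⟨lam, hl, ha, e1, e2, e3, e4⟩ := exists_diag_sorted H Q B hH hQ hB
  rw [e1] at htr
  have hln : ∀ i, lam i ≤ n := fun i => (lam_le_sum hl i).trans htr
  have hs0 : 0 ≤ ∑ i, lam i := Finset.sum_nonneg fun i _ => hl i
  rw [e1, e2, e3]
  refine ⟨hs0, ?_, Finset.sum_nonneg fun i _ => sq_nonneg _, ?_, ?_⟩
  · refine le_trans ?_ hC4
    calc ∑ i, lam i ^ 2 ≤ ∑ i, lam i * n := Finset.sum_le_sum fun i _ => by
          rw [sq]
          exact mul_le_mul_of_nonneg_left (hln i) (hl i)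
      _ = (∑ i, lam i) * n := (Finset.sum_mul _ _ _).symm
      _ ≤ n * n := mul_le_mul_of_nonneg_right htr hn
      _ = (n : ℝ) ^ 2 := (sq _).symm
  · intro τ hτ
    rw [e4]
    refine ⟨Finset.prod_nonneg fun i _ => ?_, fun hτ1 => ⟨prod_lower hl hτ _, ?_⟩⟩
    · have := mul_nonneg hτ (hl i)
      linarith
    · have h0 : 0 ≤ τ * ∑ i, lam i := mul_nonneg hτ hs0
      have h1 : τ * ∑ i, lam i ≤ n := by
        calc τ * ∑ i, lam i ≤ 1 * n := mul_le_mul hτ1 htr hs0 zero_le_one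
          _ = n := one_mul _
      refine (prod_upper hl hτ).trans ((exp_upper h0).trans ?_)
      have h2 : (τ * ∑ i, lam i) ^ 2 * Real.exp (τ * ∑ i, lam i) ≤
          (2 * n + 1) * (n + 1) ^ 3 * Real.exp n * τ ^ 2 := by
        calc (τ * ∑ i, lam i) ^ 2 * Real.exp (τ * ∑ i, lam i) ≤
            (τ * n) ^ 2 * Real.exp n := by
              refine mul_le_mul ?_ (Real.exp_le_exp.2 h1) (Real.exp_pos _).le (by positivity)
              exact pow_le_pow_left₀ h0 (mul_le_mul_of_nonneg_left htr hτ) 2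
          _ = ((n : ℝ) ^ 2 * Real.exp n) * τ ^ 2 := by ring
          _ ≤ _ := mul_le_mul_of_nonneg_right hC3 (sq_nonneg _)
      linarith
  · intro k hk δ τ hδ _ hτ
    rw [e4]
    have hkey := key_le hl ha hk hδ hτ
    have hpos : 0 ≤ (∑ i ∈ Finset.univ.filter (fun i : Fin n => i.val < k), (lam i - 1) ^ 2) +
        2 * ∑ i ∈ Finset.univ.filter (fun i : Fin n => ¬ i.val < k), lam i :=
      add_nonneg (Finset.sum_nonneg fun i _ => sq_nonneg _)
        (mul_nonneg (by norm_num) (Finset.sum_nonneg fun i _ => hl i))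
    constructor
    · refine (first_le hl htr k).trans ?_
      exact mul_le_mul hC1 hkey hpos (by positivity)
    · refine (second_le hl htr hk).trans ?_
      exact mul_le_mul hC2 hkey hpos (by positivity)

end Pool.Agent.Helper75.HS
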