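import Pool.Agent.Helper15.HS.GoalsC
import Pool.Agent.Helper75.HS.LAC
import Pool.Agent.Helper75.HS.CONCa
import Pool.Agent.Helper75.HS.CONCb

/-! # HS, CONC: concentration of the eigenvalues -/

open Complex Metric Set Filter Topology MeasureTheory
open scoped ContDiff ComplexConjugate ComplexOrder Manifold Matrix

namespace Pool.Agent.Helper75.HS

open Pool.Agent.Helper95.Lin Pool.Agent.Helper16.Abund Pool.Agent.Helper92.Orb
  Pool.Agent.Helper10.SP Pool.Agent.Helper95.RK Pool.Agent.Helper57.HS Pool.Agent.Helper15.HS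

universe u

theorem herT {n : ℕ} {T : Set (Cn n)} {G : Type u} [Group G] {R : G → Cn n → Cn n → Prop}
    {H : Cn n → Matrix (Fin n) (Fin n) ℂ} (h : KEt T R H) : HerT T R H :=
  ⟨h.posDef, h.smooth, h.inv⟩

/-- The volume formula (first part of VOLP, for one `Q`). -/
theorem volQ (hW : S_WIRT) (hR : S_RHOI.{u}) (hM : S_MOMG.{u}) {n : ℕ} {T : Set (Cn n)}
    {G : Type u} [Group G] {R : G → Cn n → Cn n → Prop} {H : Cn n → Matrix (Fin n) (Fin n) ℂ}
    (hH : KEt T R H) {κ : Cn n → ℝ} (hκ : IsPUE T R κ) {e : ℝ}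
    {Q : Cn n → Matrix (Fin n) (Fin n) ℂ} (hQ : TKE T R H e Q) (t : ℝ) :
    ∫ x in T, κ x * (Q x + (t : ℂ) • H x).det.re = VolP T κ H (e + t) := by
  have hT : IsOpen T := hH.et.isOpen
  obtain ⟨r1, r2, r3, r4, r5⟩ := hR T R H hH.et (herT hH)
  obtain ⟨r6, r7⟩ := r5 Q (herT hQ.ket)
  set s : ℝ := e + t with hs
  have h0 : ContDiffOn ℝ ∞ (fun _ : Cn n => (0 : ℂ)) T := contDiffOn_const
  have hc : ContDiffOn ℝ ∞ (fun _ : Cn n => (s : ℂ)) T := contDiffOn_const
  have hZ : CHF (fun x => rho H x + (s : ℂ) • H x) T := by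
    refine ⟨fun i j => ?_, fun x hx => ?_, fun x hx i j l => ?_⟩
    · exact (r1.smooth i j).add (hc.mul (hH.smooth i j))
    · refine (r1.herm x hx).add ?_
      have h1 := (hH.posDef x hx).isHermitian
      show ((s : ℂ) • H x)ᴴ = (s : ℂ) • H x
      rw [Matrix.conjTranspose_smul, h1.eq]
      congr 1
      exact Complex.conj_ofReal s
    · have hcd : ∀ i j l, cd l (fun y => rho H y i j + (s : ℂ) * H y i j) x =
          cd l (fun y => rho H y i j) x + (s : ℂ) * cd l (fun y => H y i j) x := by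
        intro i j l
        have a1 := ((hW T hT _ _ (r1.smooth i j) (hc.mul (hH.smooth i j))).2.1 l x hx).1
        have a2 := ((hW T hT _ _ hc (hH.smooth i j)).2.2.1 l x hx).1
        have a3 : cd l (fun _ : Cn n => (s : ℂ)) x = 0 := by
          unfold cd
          simp
        rw [a3, mul_zero, add_zero] at a2
        rw [a1, a2]
      have b1 := hcd i j l
      have b2 := hcd l j i
      have c1 := r1.closed x hx i j l
      have c2 := hH.closed x hx i j l
      show cd l (fun y => rho H y i j + (s : ℂ) * H y i j) x =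
        cd i (fun y => rho H y l j + (s : ℂ) * H y l j) x
      rw [b1, b2, c1, c2]
  have hI : InvH R (fun x => rho H x + (s : ℂ) • H x) := by
    intro U τ hA x hx u v
    have c1 := r2 U τ hA x hx u v
    have c2 := hH.inv U τ hA x hx u v
    have hl : ∀ (A B : Matrix (Fin n) (Fin n) ℂ) (u v : Cn n),
        hermi (A + (s : ℂ) • B) u v = hermi A u v + (s : ℂ) * hermi B u v := by
      intro A B u v
      unfold hermi
      rw [Finset.mul_sum, ← Finset.sum_add_distrib]
      refine Finset.sum_congr rfl fun i _ => ?_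
      rw [Finset.mul_sum, ← Finset.sum_add_distrib]
      refine Finset.sum_congr rfl fun j _ => ?_
      simp only [Matrix.add_apply, Matrix.smul_apply, smul_eq_mul]
      ring
    show hermi (rho H (τ x) + (s : ℂ) • H (τ x)) _ _ = hermi (rho H x + (s : ℂ) • H x) _ _
    rw [hl, hl, c1, c2]
  have hm := hM T R H hH κ hκ _ hZ hI _ r6
  unfold VolP
  rw [← hm]
  refine setIntegral_congr_fun hT.measurableSet fun x hx => ?_
  show κ x * (Q x + (t : ℂ) • H x).det.re =
    κ x * (rho H x + (s : ℂ) • H x + LM (fun y => ld Q y - ld H y) x).det.re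
  have e1 : Q x + (t : ℂ) • H x =
      rho H x + (s : ℂ) • H x + LM (fun y => ld Q y - ld H y) x := by
    have e2 := hQ.eq x hx
    have e3 := r7 x hx
    have e4 : Q x = rho H x + LM (fun y => ld Q y - ld H y) x + (e : ℂ) • H x := by
      rw [← e3, e2]; abel
    rw [e4, hs]
    push_cast
    rw [add_smul]
    abel
  rw [e1]

/-- The pointwise and average facts for one `Q`. -/
theorem oneQ (hW : S_WIRT) (hDT : S_DETI.{u}) (hL : S_LMID.{u}) (hCL : S_CL) (hUB : S_UB.{u})
    (hI : S_IFN.{u}) {n : ℕ} {T : Set (Cn n)}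
    {G : Type u} [Group G] {R : G → Cn n → Cn n → Prop} {H : Cn n → Matrix (Fin n) (Fin n) ℂ}
    (hH : KEt T R H) (hB : RBC H T) {κ : Cn n → ℝ} (hκ : IsPUE T R κ) {e : ℝ} (he : 0 < e)
    {Q : Cn n → Matrix (Fin n) (Fin n) ℂ} (hQ : TKE T R H e Q)
    (hD : 0 < itg T κ Q fun _ => 1) :
    AvD T κ Q ∧ ContinuousOn (Bep e H Q) T ∧
    (∀ x ∈ T, (Matrix.trace (Bep e H Q x)).re ≤ n) ∧
    avE T κ Q (fun x => (Matrix.trace (Bep e H Q x)).re) -
      avE T κ Q (fun x => (Matrix.trace (Bep e H Q x * Bep e H Q x)).re) =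
      avE T κ Q (fun x => e * (- KKt H Q x)) + avE T κ Q (fun x => e * AAt H Q x) ∧
    0 ≤ avE T κ Q (fun x => e * (- KKt H Q x)) ∧ 0 ≤ avE T κ Q (fun x => e * AAt H Q x) := by
  have hT : IsOpen T := hH.et.isOpen
  obtain ⟨d1, d2, d3, d4, d5, d6⟩ := hDT T R Q hQ.ket
  obtain ⟨-, -, dH, -, -, -⟩ := hDT T R H hH
  have hA : AvD T κ Q := ⟨hT, hκ.test, hκ.nonneg, d2.continuousOn, fun x hx => (d1 x hx).2.1, hD⟩
  have hcB : ContinuousOn (Bep e H Q) T := contB hH.smooth d3 e
  have hcK : ContinuousOn (KKt H Q) T := contKK hW hT hH.smooth dH d3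
  -- the function t
  set t : Cn n → ℝ := fun y => (Matrix.trace (H y * (Q y)⁻¹)).re with ht
  have hts : ContDiffOn ℝ ∞ t T := by
    refine Complex.reCLM.contDiff.comp_contDiffOn ?_
    simp only [Matrix.trace, Matrix.diag_apply, Matrix.mul_apply]
    exact ContDiffOn.sum fun i _ => ContDiffOn.sum fun j _ => (hH.smooth i j).mul (d3 j i)
  have hti : ∀ γ x y, R γ x y → t y = t x := by
    intro γ x y hxy
    have := ((hI T R hH.et Q H (herT hQ.ket) (fun U τ hA => hH.inv U τ hA)).2 γ x y hxy).1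
    show (Matrix.trace (H y * (Q y)⁻¹)).re = (Matrix.trace (H x * (Q x)⁻¹)).re
    rw [this]
  have hdi : DInv R t := by
    intro U τ hAr x hx
    obtain ⟨h1, h2, γ, h3⟩ := hAr
    refine Filter.EventuallyEq.fderiv_eq ?_
    filter_upwards [h1.mem_nhds hx] with y hy
    exact hti γ y (τ y) (h3 y hy)
  obtain ⟨l1, l2, l3, -⟩ := hL T R Q hQ.ket κ hκ t hts hdi
  -- the Chern-Lu identity
  have hchf : CHF Q T := ⟨hQ.ket.smooth, fun x hx => (hQ.ket.posDef x hx).isHermitian,
    hQ.ket.closed⟩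
  have hcl := hCL T hT Q H (fun x => (e : ℂ) • H x) hchf hQ.ket.posDef (fun x hx => hQ.eq x hx)
    hH.smooth hH.posDef
  -- the uniform bound
  have hub := hUB T R Q H (fun x => (e : ℂ) • H x) hQ.ket (herT hH) hB (fun x hx => hQ.eq x hx)
    e he (fun x hx => by rw [sub_self]; exact Matrix.PosSemidef.zero)
  have htr : ∀ x, (Matrix.trace (Bep e H Q x)).re = e * t x := by
    intro x
    unfold Bep
    rw [Matrix.trace_smul, smul_eq_mul, Complex.re_ofReal_mul]
  have htr2 : ∀ x, (Matrix.trace (Bep e H Q x * Bep e H Q x)).re =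
      e * (Matrix.trace ((e : ℂ) • H x * (Q x)⁻¹ * H x * (Q x)⁻¹)).re := by
    intro x
    unfold Bep
    rw [Matrix.smul_mul, Matrix.trace_smul, smul_eq_mul, Complex.re_ofReal_mul, Matrix.mul_smul,
      ← Matrix.mul_assoc, Matrix.smul_mul, Matrix.smul_mul, Matrix.smul_mul]
  refine ⟨hA, hcB, fun x hx => ?_, ?_, ?_, ?_⟩
  · rw [htr]
    have := hub x hx
    rw [le_div_iff₀ he] at this
    linarith
  · -- identity
    have hc1 : ContinuousOn (fun x => (Matrix.trace (Bep e H Q x)).re) T :=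
      Complex.continuous_re.comp_continuousOn (continuous_id.matrix_trace.comp_continuousOn hcB)
    have hc2 : ContinuousOn (fun x => (Matrix.trace (Bep e H Q x * Bep e H Q x)).re) T :=
      Complex.continuous_re.comp_continuousOn
        (continuous_id.matrix_trace.comp_continuousOn (contMul hcB hcB))
    have hc3 : ContinuousOn (fun x => e * (- KKt H Q x)) T := continuousOn_const.mul hcK.neg
    have hc0 : ContinuousOn (fun x => (trL Q t x).re) T := l2.1.continuousOn
    have hid : ∀ x ∈ T, e * AAt H Q x + e * (- KKt H Q x) +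
        (Matrix.trace (Bep e H Q x * Bep e H Q x)).re =
        (Matrix.trace (Bep e H Q x)).re + e * (trL Q t x).re := by
      intro x hx
      have h1 := (hcl x hx).2
      have h2 : (trL Q t x).re = - t x +
        (Matrix.trace ((e : ℂ) • H x * (Q x)⁻¹ * H x * (Q x)⁻¹)).re - KKt H Q x + AAt H Q x := h1
      rw [htr, htr2, h2]
      ring
    have hc4 : ContinuousOn (fun x => e * AAt H Q x) T := by
      have h1 : ContinuousOn (fun x => (Matrix.trace (Bep e H Q x)).re + e * (trL Q t x).re -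
          (Matrix.trace (Bep e H Q x * Bep e H Q x)).re - e * (- KKt H Q x)) T :=
        ((hc1.add (continuousOn_const.mul hc0)).sub hc2).sub hc3
      refine h1.congr fun x hx => ?_
      have := hid x hx
      show e * AAt H Q x = _
      linarith
    have e0 : avE T κ Q (fun x => (trL Q t x).re) = 0 := by
      unfold avE itg
      rw [l3, zero_div]
    have e1 := hA.congr hid
    have hc5 : ContinuousOn (fun x => e * AAt H Q x + e * (- KKt H Q x)) T := hc4.add hc3
    have hc6 : ContinuousOn (fun x => e * (trL Q t x).re) T := continuousOn_const.mul hc0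
    rw [hA.add hc5 hc2, hA.add hc4 hc3, hA.add hc1 hc6,
      AvD.smul e (fun x => (trL Q t x).re), e0, mul_zero, add_zero] at e1
    linarith
  · unfold avE itg
    refine div_nonneg (setIntegral_nonneg hT.measurableSet fun x hx => ?_) hD.le
    have h1 := hB x hx (Q x)⁻¹ (d1 x hx).2.2.1.posSemidef
    have h2 : 0 ≤ - KKt H Q x := by unfold KKt; linarith
    exact mul_nonneg (mul_nonneg (hκ.nonneg x) (d1 x hx).2.1.le) (mul_nonneg he.le h2)
  · unfold avE itg
    refine div_nonneg (setIntegral_nonneg hT.measurableSet fun x hx => ?_) hD.le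
    exact mul_nonneg (mul_nonneg (hκ.nonneg x) (d1 x hx).2.1.le)
      (mul_nonneg he.le (hcl x hx).1)

/-- CONC. -/
theorem conc (hW : S_WIRT) (hDT : S_DETI.{u}) (hL : S_LMID.{u}) (hCL : S_CL) (hUB : S_UB.{u})
    (hI : S_IFN.{u}) (hR : S_RHOI.{u}) (hM : S_MOMG.{u}) : S_CONC.{u} := by
  intro n T G _ R H hH hB κ hκ k p hkn hp hV ε Q hε hlim hQ
  have hT : IsOpen T := hH.et.isOpen
  obtain ⟨C0, hC0, hlac⟩ := lac n
  -- the volume
  have hvol : ∀ j, ∀ t : ℝ, ∫ x in T, κ x * (Q j x + (t : ℂ) • H x).det.re =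
      (ε j + t) ^ k * p.eval (ε j + t) := fun j t => by
    rw [volQ hW hR hM hH hκ (hQ j) t, hV]
  have hDj : ∀ j, (itg T κ (Q j) fun _ => 1) = ε j ^ k * p.eval (ε j) := fun j => by
    have h1 := hvol j 0
    rw [add_zero] at h1
    rw [← h1]
    unfold itg
    refine setIntegral_congr_fun hT.measurableSet fun x _ => ?_
    show κ x * (Q j x).det.re * 1 = κ x * (Q j x + ((0 : ℝ) : ℂ) • H x).det.re
    rw [Complex.ofReal_zero, zero_smul, add_zero, mul_one]
  have hpc : Continuous fun s : ℝ => p.eval s := p.continuous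
  have hpl : Tendsto (fun j => p.eval (ε j)) atTop (𝓝 (p.eval 0)) :=
    (hpc.tendsto 0).comp hlim
  have hev : ∀ᶠ j in atTop, 0 < p.eval (ε j) := hpl.eventually (lt_mem_nhds hp)
  have hDpos : ∀ᶠ j in atTop, 0 < itg T κ (Q j) fun _ => 1 := by
    filter_upwards [hev] with j hj
    rw [hDj]
    exact mul_pos (pow_pos (hε j) _) hj
  have hone : ∀ j, (0 < itg T κ (Q j) fun _ => 1) → _ := fun j hD =>
    oneQ hW hDT hL hCL hUB hI hH hB hκ (hε j) (hQ j) hD
  -- pointwise use of LAC
  have hpt : ∀ j, (∀ x ∈ T, (Matrix.trace (Bep (ε j) H (Q j) x)).re ≤ n) → ∀ x ∈ T, _ :=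
    fun j hb x hx => hlac ((ε j : ℂ) • H x) (Q j x) (Bep (ε j) H (Q j) x)
      ((hH.posDef x hx).smul (by exact_mod_cast hε j)) ((hQ j).ket.posDef x hx)
      (by unfold Bep; rw [Matrix.smul_mul]) (hb x hx)
  -- the determinant
  have hdet : ∀ j, ∀ τ : ℝ, 0 < p.eval (ε j) →
      avE T κ (Q j) (fun x => (1 + (τ : ℂ) • Bep (ε j) H (Q j) x).det.re) =
      (1 + τ) ^ k * (p.eval (ε j * (1 + τ)) / p.eval (ε j)) := by
    intro j τ hj
    obtain ⟨d1, -, -, -, -, -⟩ := hDT T R (Q j) (hQ j).ket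
    have h1 : itg T κ (Q j) (fun x => (1 + (τ : ℂ) • Bep (ε j) H (Q j) x).det.re) =
        (ε j + τ * ε j) ^ k * p.eval (ε j + τ * ε j) := by
      rw [← hvol j (τ * ε j)]
      unfold itg
      refine setIntegral_congr_fun hT.measurableSet fun x hx => ?_
      obtain ⟨i1, i2, i3, i4⟩ := d1 x hx
      show κ x * (Q j x).det.re * (1 + (τ : ℂ) • Bep (ε j) H (Q j) x).det.re =
        κ x * (Q j x + ((τ * ε j : ℝ) : ℂ) • H x).det.re
      rw [mul_assoc]
      congr 1
      have h2 : (Q j x).det.re * (1 + (τ : ℂ) • Bep (ε j) H (Q j) x).det.re =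
          ((1 + (τ : ℂ) • Bep (ε j) H (Q j) x).det * (Q j x).det).re := by
        rw [Complex.mul_re, i1, mul_zero, sub_zero, mul_comm]
      rw [h2, ← Matrix.det_mul]
      congr 2
      have h3 : (Q j x)⁻¹ * Q j x = 1 := by
        have hu : IsUnit (Q j x).det := by
          rw [isUnit_iff_ne_zero]
          intro h4
          rw [h4] at i2
          simp at i2
        exact Matrix.nonsing_inv_mul _ hu
      rw [add_mul, one_mul]
      unfold Bep
      rw [Matrix.smul_mul, Matrix.smul_mul, Matrix.mul_assoc, h3, Matrix.mul_one, smul_smul]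
      push_cast
      rfl
    have hεk : 0 < ε j ^ k := pow_pos (hε j) _
    unfold avE
    rw [h1, hDj]
    have h5 : ε j + τ * ε j = ε j * (1 + τ) := by ring
    rw [h5, mul_pow, div_eq_iff (mul_pos hεk hj).ne']
    field_simp
  have key := concSeq n k C0 hC0
    (fun j => avE T κ (Q j) fun x => (Matrix.trace (Bep (ε j) H (Q j) x)).re)
    (fun j => avE T κ (Q j) fun x =>
      (Matrix.trace (Bep (ε j) H (Q j) x * Bep (ε j) H (Q j) x)).re)
    (fun j => avE T κ (Q j) fun x => (Matrix.trace (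
      (Bep (ε j) H (Q j) x * Bep (ε j) H (Q j) x - Bep (ε j) H (Q j) x) *
      (Bep (ε j) H (Q j) x * Bep (ε j) H (Q j) x - Bep (ε j) H (Q j) x))).re)
    (fun j => avE T κ (Q j) fun x => ((Matrix.trace (Bep (ε j) H (Q j) x)).re - k) ^ 2)
    (fun j => avE T κ (Q j) fun x => ε j * (- KKt H (Q j) x))
    (fun j => avE T κ (Q j) fun x => ε j * AAt H (Q j) x)
    (fun j τ => avE T κ (Q j) (fun x => (1 + (τ : ℂ) • Bep (ε j) H (Q j) x).det.re))
  refine key ?_ ?_ ?_ ?_
  · intro τ hτ
    have h1 : Tendsto (fun j => (1 + τ) ^ k * (p.eval (ε j * (1 + τ)) / p.eval (ε j))) atTop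
        (𝓝 ((1 + τ) ^ k * (p.eval 0 / p.eval 0))) := by
      refine Tendsto.const_mul _ (Tendsto.div ?_ hpl hp.ne')
      have h2 : Tendsto (fun j => ε j * (1 + τ)) atTop (𝓝 0) := by
        simpa using hlim.mul_const (1 + τ)
      exact (hpc.tendsto 0).comp h2
    rw [div_self hp.ne', mul_one] at h1
    refine h1.congr' ?_
    filter_upwards [hev] with j hj
    exact (hdet j τ hj).symm
  · filter_upwards [hDpos] with j hj τ hτ hτ1
    obtain ⟨hA, hc, hb, -, -, -⟩ := hone j hj
    have hc1 : ContinuousOn (fun x => (Matrix.trace (Bep (ε j) H (Q j) x)).re) T :=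
      Complex.continuous_re.comp_continuousOn (continuous_id.matrix_trace.comp_continuousOn hc)
    have hcd : ContinuousOn (fun x => (1 + (τ : ℂ) • Bep (ε j) H (Q j) x).det.re) T :=
      Complex.continuous_re.comp_continuousOn (continuous_id.matrix_det.comp_continuousOn
        (continuousOn_const.add (hc.const_smul (τ : ℂ))))
    have hc2 : ContinuousOn (fun x => τ * (Matrix.trace (Bep (ε j) H (Q j) x)).re) T :=
      continuousOn_const.mul hc1
    have hc3 : ContinuousOn (fun x => 1 + τ * (Matrix.trace (Bep (ε j) H (Q j) x)).re) T :=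
      continuousOn_const.add hc2
    have hc4 : ContinuousOn (fun _ : Cn n => (1 : ℝ)) T := continuousOn_const
    have hc5 : ContinuousOn (fun _ : Cn n => C0 * τ ^ 2) T := continuousOn_const
    constructor
    · have h1 := hA.mono hc3 hcd fun x hx => ((hpt j hb x hx).2.2.2.1 τ hτ).2 hτ1 |>.1
      rw [hA.add hc4 hc2, AvD.smul τ (fun x => (Matrix.trace (Bep (ε j) H (Q j) x)).re),
        hA.const] at h1
      exact h1
    · have h1 := hA.mono hcd (hc3.add hc5)
        fun x hx => ((hpt j hb x hx).2.2.2.1 τ hτ).2 hτ1 |>.2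
      have h2 := hA.add hc3 hc5
      rw [hA.add hc4 hc2, AvD.smul τ (fun x => (Matrix.trace (Bep (ε j) H (Q j) x)).re),
        hA.const, hA.const] at h2
      rw [← h2]
      exact h1
  · filter_upwards [hDpos] with j hj
    obtain ⟨hA, hc, hb, h1, h2, h3⟩ := hone j hj
    exact ⟨h1, h2, h3⟩
  · filter_upwards [hDpos] with j hj δ τ hδ hδ1 hτ
    obtain ⟨hA, hc, hb, -, -, -⟩ := hone j hj
    have hcc : ContinuousOn (fun x => Bep (ε j) H (Q j) x * Bep (ε j) H (Q j) x) T :=
      contMul hc hc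
    have hc1 : ContinuousOn (fun x => (Matrix.trace (Bep (ε j) H (Q j) x)).re) T :=
      Complex.continuous_re.comp_continuousOn (continuous_id.matrix_trace.comp_continuousOn hc)
    have hc2 : ContinuousOn
        (fun x => (Matrix.trace (Bep (ε j) H (Q j) x * Bep (ε j) H (Q j) x)).re) T :=
      Complex.continuous_re.comp_continuousOn (continuous_id.matrix_trace.comp_continuousOn hcc)
    have hcs : ContinuousOn (fun x => (Matrix.trace (
        (Bep (ε j) H (Q j) x * Bep (ε j) H (Q j) x - Bep (ε j) H (Q j) x) *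
        (Bep (ε j) H (Q j) x * Bep (ε j) H (Q j) x - Bep (ε j) H (Q j) x))).re) T :=
      Complex.continuous_re.comp_continuousOn (continuous_id.matrix_trace.comp_continuousOn
        (contMul (hcc.sub hc) (hcc.sub hc)))
    have hcr : ContinuousOn (fun x => ((Matrix.trace (Bep (ε j) H (Q j) x)).re - k) ^ 2) T :=
      (hc1.sub continuousOn_const).pow 2
    have hcd : ContinuousOn (fun x => (1 + (τ : ℂ) • Bep (ε j) H (Q j) x).det.re) T :=
      Complex.continuous_re.comp_continuousOn (continuous_id.matrix_det.comp_continuousOn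
        (continuousOn_const.add (hc.const_smul (τ : ℂ))))
    set w : ℝ := (δ ^ k * τ ^ (k + 1))⁻¹ with hw
    -- the average of the bound
    have hM1 : ContinuousOn (fun x => C0 * ((Matrix.trace (Bep (ε j) H (Q j) x *
        Bep (ε j) H (Q j) x)).re + ((-2) * (Matrix.trace (Bep (ε j) H (Q j) x)).re +
        ((k : ℝ) + 4 * n * δ + (4 * n * w) * (1 + (τ : ℂ) • Bep (ε j) H (Q j) x).det.re)))) T :=
      continuousOn_const.mul (hc2.add ((continuousOn_const.mul hc1).add
        (continuousOn_const.add (continuousOn_const.mul hcd))))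
    have hM2 : avE T κ (Q j) (fun x => C0 * ((Matrix.trace (Bep (ε j) H (Q j) x *
        Bep (ε j) H (Q j) x)).re + ((-2) * (Matrix.trace (Bep (ε j) H (Q j) x)).re +
        ((k : ℝ) + 4 * n * δ + (4 * n * w) * (1 + (τ : ℂ) • Bep (ε j) H (Q j) x).det.re)))) =
        C0 * (avE T κ (Q j) (fun x => (Matrix.trace (Bep (ε j) H (Q j) x *
          Bep (ε j) H (Q j) x)).re) + ((-2) * avE T κ (Q j)
          (fun x => (Matrix.trace (Bep (ε j) H (Q j) x)).re) + ((k : ℝ) + 4 * n * δ +
          (4 * n * w) * avE T κ (Q j)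
            (fun x => (1 + (τ : ℂ) • Bep (ε j) H (Q j) x).det.re)))) := by
      have c1 : ContinuousOn (fun _ : Cn n => (k : ℝ) + 4 * n * δ) T := continuousOn_const
      have c2 : ContinuousOn (fun x => (4 * n * w) *
          (1 + (τ : ℂ) • Bep (ε j) H (Q j) x).det.re) T := continuousOn_const.mul hcd
      have c3 : ContinuousOn (fun x => (k : ℝ) + 4 * n * δ + (4 * n * w) *
          (1 + (τ : ℂ) • Bep (ε j) H (Q j) x).det.re) T := c1.add c2
      have c4 : ContinuousOn (fun x => (-2) * (Matrix.trace (Bep (ε j) H (Q j) x)).re) T :=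
        continuousOn_const.mul hc1
      have c5 : ContinuousOn (fun x => (-2) * (Matrix.trace (Bep (ε j) H (Q j) x)).re +
        ((k : ℝ) + 4 * n * δ + (4 * n * w) * (1 + (τ : ℂ) • Bep (ε j) H (Q j) x).det.re)) T :=
        c4.add c3
      rw [AvD.smul, hA.add hc2 c5, hA.add c4 c3, hA.add c1 c2, AvD.smul, AvD.smul, hA.const]
    have hM3 : ∀ a b d : ℝ, C0 * (b + ((-2) * a + ((k : ℝ) + 4 * n * δ + (4 * n * w) * d))) =
        C0 * (b - 2 * a + k + 4 * n * (δ + d / (δ ^ k * τ ^ (k + 1)))) := by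
      intro a b d
      rw [div_eq_mul_inv, ← hw]
      ring
    refine ⟨hA.nonneg hcs fun x hx => (hpt j hb x hx).2.2.1, ?_,
      hA.nonneg hcr fun x hx => sq_nonneg _, ?_⟩
    · rw [← hM3, ← hM2]
      refine hA.mono hcs hM1 fun x hx => ?_
      rw [hM3]
      exact ((hpt j hb x hx).2.2.2.2 k hkn δ τ hδ hδ1 hτ).1
    · rw [← hM3, ← hM2]
      refine hA.mono hcr hM1 fun x hx => ?_
      rw [hM3]
      exact ((hpt j hb x hx).2.2.2.2 k hkn δ τ hδ hδ1 hτ).2

end Pool.Agent.Helper75.HS
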